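import Pool.Agent.Helper4.HD.Goals

/-!
Dunkl block: `S_DD` (helper4).
-/

set_option autoImplicit false

namespace Pool.Agent.Helper4.HD

open MvPolynomial Finset

noncomputable section

theorem cancel_X {n : ℕ} {i j : Fin n} (h : i ≠ j) {a b : P n}
    (hab : (X i - X j : P n) * a = (X i - X j) * b) : a = b :=
  mul_left_cancel₀ (X_sub_X_ne h) hab

theorem sw_swap_swap {n : ℕ} (i j : Fin n) (f : P n) :
    sw (Equiv.swap i j) (sw (Equiv.swap i j) f) = f := by
  rw [← sw_mul_apply, Equiv.swap_mul_self, sw_one_apply]

theorem isHomogeneous_factor {n : ℕ} {i j : Fin n} (h : i ≠ j) (g : P n) (m : ℕ)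
    (hg : ((X i - X j : P n) * g).IsHomogeneous (m + 1)) : g.IsHomogeneous m := by
  have hX : (X i - X j : P n).IsHomogeneous 1 := (isHomogeneous_X ℂ i).sub (isHomogeneous_X ℂ j)
  have hcomp : ∀ e, homogeneousComponent (e + 1) ((X i - X j : P n) * g) =
      (X i - X j) * homogeneousComponent e g := by
    intro e
    have h1 : (X i - X j : P n) * g = ∑ d ∈ range (g.totalDegree + 1),
        (X i - X j) * homogeneousComponent d g := by
      rw [← Finset.mul_sum, sum_homogeneousComponent]
    rw [h1, map_sum]
    have h2 : ∀ d ∈ range (g.totalDegree + 1),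
        homogeneousComponent (e + 1) ((X i - X j : P n) * homogeneousComponent d g) =
          if d = e then (X i - X j) * homogeneousComponent e g else 0 := by
      intro d _
      have h3 : ((X i - X j : P n) * homogeneousComponent d g).IsHomogeneous (1 + d) :=
        hX.mul (homogeneousComponent_isHomogeneous d g)
      rw [homogeneousComponent_of_mem ((mem_homogeneousSubmodule _ _).2 h3)]
      by_cases hde : d = e
      · subst hde
        rw [if_pos (by omega), if_pos rfl]
      · rw [if_neg (by omega), if_neg hde]
    rw [Finset.sum_congr rfl h2, Finset.sum_ite_eq']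
    split_ifs with h4
    · rfl
    · have h5 : g.totalDegree < e := by
        rw [Finset.mem_range] at h4
        omega
      rw [homogeneousComponent_eq_zero _ _ h5, mul_zero]
  have hzero : ∀ e, e ≠ m → homogeneousComponent e g = 0 := by
    intro e he
    apply cancel_X h
    rw [← hcomp e, mul_zero,
      homogeneousComponent_of_mem ((mem_homogeneousSubmodule _ _).2 hg), if_neg (by omega)]
  have hfin : g = homogeneousComponent m g := by
    conv_lhs => rw [← sum_homogeneousComponent g]
    by_cases hm : m ∈ range (g.totalDegree + 1)
    · rw [Finset.sum_eq_single_of_mem m hm]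
      intro b _ hb
      exact hzero b hb
    · rw [Finset.sum_eq_zero, homogeneousComponent_eq_zero]
      · rw [Finset.mem_range] at hm
        omega
      · intro b hb
        apply hzero
        intro hbm
        exact hm (hbm ▸ hb)
  rw [hfin]
  exact homogeneousComponent_isHomogeneous m g

theorem sw_isHomogeneous {n : ℕ} (σ : Equiv.Perm (Fin n)) {f : P n} {m : ℕ}
    (hf : f.IsHomogeneous m) : (sw σ f).IsHomogeneous m := hf.rename_isHomogeneous

theorem dd_ : S_DD := by
  intro n i j f g
  refine ⟨?_, ?_, ?_, ?_, ?_, ?_, ?_, ?_, ?_⟩
  · by_cases h : i = j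
    · subst h
      rw [dd_self, neg_zero]
    · apply cancel_X h
      have h1 := dd_spec (fun hh => h hh.symm : j ≠ i) f
      have h2 := dd_spec h f
      rw [Equiv.swap_comm j i] at h1
      linear_combination -h1 + h2
  · by_cases h : i = j
    · subst h
      rw [dd_self, dd_self, dd_self, zero_mul, mul_zero, add_zero]
    · apply cancel_X h
      have h1 := dd_spec h f
      have h2 := dd_spec h g
      have h3 := dd_spec h (f * g)
      rw [map_mul (sw (Equiv.swap i j))] at h3
      linear_combination h3 - g * h1 - sw (Equiv.swap i j) f * h2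
  · intro a
    by_cases h : i = j
    · subst h
      rw [dd_self]
    · apply cancel_X h
      rw [dd_spec h, sw_C, sub_self, mul_zero]
  · intro h
    apply cancel_X h
    have h1 := dd_spec h f
    have h3 := dd_spec h (X i * f)
    rw [map_mul (sw (Equiv.swap i j)), sw_X, Equiv.swap_apply_left] at h3
    linear_combination h3 - X i * h1
  · intro h
    apply cancel_X h
    have h1 := dd_spec h f
    have h3 := dd_spec h (X j * f)
    rw [map_mul (sw (Equiv.swap i j)), sw_X, Equiv.swap_apply_right] at h3
    linear_combination h3 - X j * h1
  · intro k hki hkj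
    by_cases h : i = j
    · subst h
      rw [dd_self, dd_self, mul_zero]
    · apply cancel_X h
      have h1 := dd_spec h f
      have h3 := dd_spec h (X k * f)
      rw [map_mul (sw (Equiv.swap i j)), sw_X, Equiv.swap_apply_of_ne_of_ne hki hkj] at h3
      linear_combination h3 - X k * h1
  · intro σ
    by_cases h : i = j
    · subst h
      rw [dd_self, dd_self, map_zero]
    · have h' : σ i ≠ σ j := fun hh => h (σ.injective hh)
      apply cancel_X h'
      rw [dd_spec h', ← sw_X σ i, ← sw_X σ j, ← map_sub, ← map_mul, dd_spec h, map_sub,
        ← sw_mul_apply, ← sw_mul_apply, Equiv.mul_swap_eq_swap_mul]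
  · intro hs
    by_cases h : i = j
    · subst h
      rw [dd_self]
    · apply cancel_X h
      rw [dd_spec h, hs, sub_self, mul_zero]
  · intro m hf
    by_cases h : i = j
    · subst h
      rw [dd_self]
      exact isHomogeneous_zero _ _ _
    · apply isHomogeneous_factor h
      rw [dd_spec h]
      exact hf.sub (sw_isHomogeneous _ hf)

end

end Pool.Agent.Helper4.HD
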