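import Pool.Agent.Helper4.HD.Goals

/-!
Dunkl block: `S_FDM` from `S_NIL` (helper4).
-/

set_option autoImplicit false

namespace Pool.Agent.Helper4.HD

open MvPolynomial Finset

noncomputable section

theorem fdm (hNIL : S_NIL) : S_FDM := by
  intro n
  have hloc : ∀ a ∈ zeroLocus ℂ (Jd n), a = 0 := by
    intro a ha
    apply hNIL n a
    · intro i
      have := ha (ff i (n + 1)) (Ideal.subset_span (Or.inl ⟨i, rfl⟩))
      rwa [MvPolynomial.aeval_eq_eval] at this
    · have := ha (pw n 1) (Ideal.subset_span (Or.inr rfl))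
      rw [MvPolynomial.aeval_eq_eval] at this
      unfold pw at this
      rw [map_sum] at this
      rw [← this]
      refine Finset.sum_congr rfl fun i _ => ?_
      rw [pow_one]
      exact (eval_X i).symm
  have hrad : ∀ i : Fin n, (X i : P n) ∈ (Jd n).radical := by
    intro i
    rw [← MvPolynomial.vanishingIdeal_zeroLocus_eq_radical (k := ℂ) (K := ℂ) (Jd n)]
    rw [MvPolynomial.mem_vanishingIdeal_iff]
    intro a ha
    rw [hloc a ha, aeval_X]
    rfl
  have hint : ∀ f : P n, IsIntegral ℂ (Ideal.Quotient.mk (Jd n) f) := by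
    intro f
    induction f using MvPolynomial.induction_on with
    | C a => exact isIntegral_algebraMap (R := ℂ) (A := P n ⧸ Jd n) (x := a)
    | add p q hp hq =>
      rw [map_add]
      exact hp.add hq
    | mul_X p i hp =>
      rw [map_mul]
      refine hp.mul ?_
      obtain ⟨k, hk⟩ := hrad i
      refine ⟨Polynomial.X ^ k, Polynomial.monic_X_pow k, ?_⟩
      rw [Polynomial.eval₂_pow, Polynomial.eval₂_X, ← map_pow, Ideal.Quotient.eq_zero_iff_mem]
      exact hk
  have : Algebra.IsIntegral ℂ (P n ⧸ Jd n) := by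
    refine ⟨fun x => ?_⟩
    obtain ⟨f, rfl⟩ := Ideal.Quotient.mk_surjective x
    exact hint f
  exact Algebra.IsIntegral.finite

end

end Pool.Agent.Helper4.HD
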