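import Pool.Agent.Helper4.HD.Goals

/-!
Dunkl block: the final statement `S_HM` from `S_TRL`, `S_COM`, `S_STB`, `S_FDM` (helper4).
-/

set_option autoImplicit false

namespace Pool.Agent.Helper4.HD

open MvPolynomial Finset

noncomputable section

theorem exists_factor' {A B C : Type} [AddCommGroup A] [Module ℂ A] [AddCommGroup B] [Module ℂ B]
    [AddCommGroup C] [Module ℂ C] (f : A →ₗ[ℂ] B) (hf : Function.Surjective f) (g : A →ₗ[ℂ] C)
    (h : ∀ a, f a = 0 → g a = 0) : ∃ k : B →ₗ[ℂ] C, ∀ a, k (f a) = g a := by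
  refine ⟨((LinearMap.ker f).liftQ g ?_) ∘ₗ
    ((f.quotKerEquivOfSurjective hf).symm : B →ₗ[ℂ] (A ⧸ LinearMap.ker f)), ?_⟩
  · intro a ha
    rw [LinearMap.mem_ker] at ha ⊢
    exact h a ha
  · intro a
    have h1 : (f.quotKerEquivOfSurjective hf).symm (f a) = Submodule.Quotient.mk a := by
      rw [LinearEquiv.symm_apply_eq]
      rfl
    rw [LinearMap.comp_apply, LinearEquiv.coe_coe, h1]
    rfl

theorem hm (hTRL : S_TRL) (hCOM : S_COM) (hSTB : S_STB) (hFDM : S_FDM) : S_HM := by
  intro n
  let pr : P n →ₗ[ℂ] (P n ⧸ Jd n) := (Ideal.Quotient.mkₐ ℂ (Jd n)).toLinearMap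
  have hpr : ∀ f, pr f = Ideal.Quotient.mk (Jd n) f := fun f => rfl
  have hsurj : Function.Surjective pr := Ideal.Quotient.mk_surjective
  have hker : ∀ f, pr f = 0 ↔ f ∈ Jd n := by
    intro f
    rw [hpr]
    exact Ideal.Quotient.eq_zero_iff_mem
  have hX : ∀ i : Fin n, ∃ k : Module.End ℂ (P n ⧸ Jd n), ∀ f, k (pr f) = pr (X i * f) := by
    intro i
    exact exists_factor' pr hsurj (pr ∘ₗ LinearMap.mulLeft ℂ (X i : P n)) (by
      intro a ha
      rw [LinearMap.comp_apply, hker, LinearMap.mulLeft_apply]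
      exact Ideal.mul_mem_left _ _ ((hker a).1 ha))
  have hT : ∀ i : Fin n, ∃ k : Module.End ℂ (P n ⧸ Jd n), ∀ f, k (pr f) = pr (Tk i f) := by
    intro i
    exact exists_factor' pr hsurj (pr ∘ₗ Tk i) (by
      intro a ha
      rw [LinearMap.comp_apply, hker]
      exact (hSTB n a ((hker a).1 ha)).1 i)
  have hS : ∀ g : Equiv.Perm (Fin n), ∃ k : Module.End ℂ (P n ⧸ Jd n),
      ∀ f, k (pr f) = pr (sw g f) := by
    intro g
    exact exists_factor' pr hsurj (pr ∘ₗ (sw g).toLinearMap) (by
      intro a ha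
      rw [LinearMap.comp_apply, hker]
      exact (hSTB n a ((hker a).1 ha)).2.1 g)
  choose x hx using hX
  choose y hy using hT
  choose s hs using hS
  have hext : ∀ A B : Module.End ℂ (P n ⧸ Jd n), (∀ f, A (pr f) = B (pr f)) → A = B := by
    intro A B h
    refine LinearMap.ext fun v => ?_
    obtain ⟨f, rfl⟩ := hsurj v
    exact h f
  have hsumx : ∑ i, x i = 0 := by
    apply hext
    intro f
    rw [LinearMap.sum_apply, Finset.sum_congr rfl fun i _ => hx i f, ← map_sum,
      ← Finset.sum_mul, LinearMap.zero_apply, hker]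
    apply Ideal.mul_mem_right
    have : (∑ i : Fin n, (X i : P n)) = pw n 1 := by
      unfold pw
      refine Finset.sum_congr rfl fun i _ => ?_
      rw [pow_one]
    rw [this]
    exact Ideal.subset_span (Or.inr rfl)
  have hsumy : ∑ i, y i = 0 := by
    apply hext
    intro f
    rw [LinearMap.sum_apply, Finset.sum_congr rfl fun i _ => hy i f, ← map_sum,
      LinearMap.zero_apply]
    rcases Nat.eq_zero_or_pos n with h0 | h0
    · subst h0
      rw [Finset.univ_eq_empty, Finset.sum_empty, map_zero]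
    · rw [(hTRL n ⟨0, h0⟩ f).2.2.2.1, map_zero]
  refine ⟨{ pr := pr, surj := hsurj, fd := hFDM n, one_ne := ?_, homog := ?_, x := x, y := y, s := s
            x_pr := hx, y_pr := hy, s_pr := hs, sum_x := hsumx, sum_y := hsumy, s_one := ?_
            s_mul := ?_, s_x := ?_, s_y := ?_, x_comm := ?_, y_comm := ?_, y_x_ne := ?_
            y_x_eq := ?_ }, hpr⟩
  · intro h1
    have h2 := (hSTB n 1 ((hker 1).1 h1)).2.2.2
    rw [map_one] at h2
    exact one_ne_zero h2
  · intro f hf d
    rw [hker] at hf ⊢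
    exact (hSTB n f hf).2.2.1 d
  · apply hext
    intro f
    rw [hs, sw_one_apply, Module.End.one_apply]
  · intro g h
    apply hext
    intro f
    rw [Module.End.mul_apply, hs, hs, hs, sw_mul_apply]
  · intro g i
    apply hext
    intro f
    rw [Module.End.mul_apply, Module.End.mul_apply, hx, hs, hs, hx, map_mul, sw_X]
  · intro g i
    apply hext
    intro f
    rw [Module.End.mul_apply, Module.End.mul_apply, hy, hs, hs, hy, (hTRL n i f).2.2.1 g]
  · intro i j
    apply hext
    intro f
    rw [Module.End.mul_apply, Module.End.mul_apply, hx, hx, hx, hx]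
    congr 1
    ring
  · intro i j
    apply hext
    intro f
    rw [Module.End.mul_apply, Module.End.mul_apply, hy, hy, hy, hy, (hCOM n i j f).2.2]
  · intro i j hij
    apply hext
    intro f
    rw [LinearMap.sub_apply, LinearMap.sub_apply, Module.End.mul_apply, Module.End.mul_apply, hx, hy,
      hy, hx, LinearMap.smul_apply, LinearMap.smul_apply, Module.End.one_apply, hs,
      (hTRL n i f).2.1 j hij, map_sub, map_add, map_smul, map_smul]
    abel
  · intro i
    apply hext
    intro f
    rw [LinearMap.sub_apply, LinearMap.sub_apply, Module.End.mul_apply, Module.End.mul_apply, hx, hy,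
      hy, hx, LinearMap.smul_apply, LinearMap.smul_apply, Module.End.one_apply,
      (hTRL n i f).1, map_sub, map_add, map_smul, map_smul, LinearMap.sum_apply, map_sum,
      Finset.sum_congr rfl fun j _ => hs (Equiv.swap i j) f]
    abel

end

end Pool.Agent.Helper4.HD
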