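import Pool.Agent.Helper4.HD.Goals

/-!
Dunkl block: `S_NIL` from `S_PSF`, `S_VAN`, `S_POL`, `S_ORD` (helper4).
-/

set_option autoImplicit false

namespace Pool.Agent.Helper4.HD

open MvPolynomial Finset

noncomputable section

/-- the polynomial `∏_{y ∈ S} (1 - y t)`. -/
def ppr (S : Finset ℂ) : Polynomial ℂ := ∏ y ∈ S, (1 - Polynomial.C y * Polynomial.X)

theorem ppr_coe (S : Finset ℂ) : ((ppr S : Polynomial ℂ) : PowerSeries ℂ) = pr1 S := by
  unfold ppr pr1
  have h := map_prod (Polynomial.coeToPowerSeries.ringHom (R := ℂ))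
    (fun y : ℂ => (1 - Polynomial.C y * Polynomial.X : Polynomial ℂ)) S
  rw [Polynomial.coeToPowerSeries.ringHom_apply] at h
  rw [h]
  refine Finset.prod_congr rfl fun y _ => ?_
  rw [map_sub, map_one, map_mul, Polynomial.coeToPowerSeries.ringHom_apply,
    Polynomial.coeToPowerSeries.ringHom_apply, Polynomial.coe_C, Polynomial.coe_X]

theorem ppr_natDegree (S : Finset ℂ) : (ppr S).natDegree ≤ S.card := by
  unfold ppr
  refine (Polynomial.natDegree_prod_le _ _).trans ?_
  rw [Finset.card_eq_sum_ones]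
  refine Finset.sum_le_sum fun y _ => ?_
  show (1 - Polynomial.C y * Polynomial.X : Polynomial ℂ).natDegree ≤ 1
  refine (Polynomial.natDegree_sub_le _ _).trans ?_
  rw [Polynomial.natDegree_one]
  refine max_le (Nat.zero_le 1) ((Polynomial.natDegree_C_mul_le _ _).trans ?_)
  rw [Polynomial.natDegree_X]

theorem ppr_coeff_zero (S : Finset ℂ) : (ppr S).coeff 0 = 1 := by
  unfold ppr
  rw [Polynomial.coeff_zero_prod]
  refine Finset.prod_eq_one fun y _ => ?_
  rw [Polynomial.coeff_sub, Polynomial.coeff_one_zero, Polynomial.mul_coeff_zero,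
    Polynomial.coeff_X_zero, mul_zero, sub_zero]

theorem nil (hPSF : S_PSF) (hVAN : S_VAN) (hPOL : S_POL) (hORD : S_ORD) : S_NIL := by
  intro n a ha hsum
  rcases Nat.eq_zero_or_pos n with hn | hn
  · subst hn
    exact funext fun i => i.elim0
  obtain ⟨H, hH0, hODE, hcoef⟩ := hPSF n a
  have hYne : (univ.image a).Nonempty := by
    rw [Finset.image_nonempty]
    exact ⟨⟨0, hn⟩, Finset.mem_univ _⟩
  have hYcard : (univ.image a).card ≤ n := by
    refine Finset.card_image_le.trans ?_
    rw [Finset.card_univ, Fintype.card_fin]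
  have hv : ∀ y ∈ univ.image a,
      PowerSeries.coeff (n + 1) (pr1 ((univ.image a).erase y) * H) = 0 := by
    intro y hy
    obtain ⟨i, -, rfl⟩ := Finset.mem_image.1 hy
    rw [← hcoef i (n + 1)]
    exact ha i
  have hvan := hVAN (univ.image a) H (n + 1) hYne (by omega) hv
  set Y := univ.image a with hY
  let Q : Polynomial ℂ := ∑ y ∈ Y, Polynomial.C ((1 - cc n * mlt a y) * y) * ppr (Y.erase y)
  have hQcoe : ((Q : Polynomial ℂ) : PowerSeries ℂ) =
      ∑ y ∈ Y, PowerSeries.C ((1 - cc n * mlt a y) * y) * pr1 (Y.erase y) := by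
    have h := map_sum (Polynomial.coeToPowerSeries.ringHom (R := ℂ))
      (fun y : ℂ => (Polynomial.C ((1 - cc n * mlt a y) * y) * ppr (Y.erase y) : Polynomial ℂ)) Y
    rw [Polynomial.coeToPowerSeries.ringHom_apply] at h
    show ((∑ y ∈ Y, Polynomial.C ((1 - cc n * mlt a y) * y) * ppr (Y.erase y) : Polynomial ℂ) :
      PowerSeries ℂ) = _
    rw [h]
    refine Finset.sum_congr rfl fun y _ => ?_
    rw [map_mul, Polynomial.coeToPowerSeries.ringHom_apply,
      Polynomial.coeToPowerSeries.ringHom_apply, Polynomial.coe_C, ppr_coe]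
  have hQdeg : ∀ j, Y.card ≤ j → Q.coeff j = 0 := by
    intro j hj
    show (∑ y ∈ Y, Polynomial.C ((1 - cc n * mlt a y) * y) * ppr (Y.erase y)).coeff j = 0
    rw [Polynomial.finsetSum_coeff]
    refine Finset.sum_eq_zero fun y hy => ?_
    rw [Polynomial.coeff_C_mul]
    have h1 : (ppr (Y.erase y)).natDegree < j := by
      refine (ppr_natDegree _).trans_lt ?_
      exact (Finset.card_erase_lt_of_mem hy).trans_le hj
    rw [Polynomial.coeff_eq_zero_of_natDegree_lt h1, mul_zero]
  obtain ⟨h, hh⟩ := hPOL H (ppr Y) Q Y.card (n + 1) (by omega) (ppr_natDegree Y) hQdeg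
    (ppr_coeff_zero Y) (by rw [ppr_coe, hQcoe]; exact hODE) hvan
  have hne : h ≠ 0 := by
    intro h0
    rw [h0, Polynomial.coe_zero] at hh
    rw [← hh, map_zero] at hH0
    exact zero_ne_one hH0
  have hpoly : ppr Y * Polynomial.derivative h = Q * h := by
    apply Polynomial.coe_injective ℂ
    rw [Polynomial.coe_mul, Polynomial.coe_mul, ppr_coe, hQcoe, hh, ← hODE, ← hh]
    congr 1
    ext k
    rw [PowerSeries.coeff_derivative, Polynomial.coeff_coe, Polynomial.coeff_coe,
      Polynomial.coeff_derivative]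
  have hord := hORD Y (fun y => 1 - cc n * mlt a y) h hne hpoly
  by_contra hne0
  have hex : ∃ i, a i ≠ 0 := by
    by_contra hc
    push Not at hc
    exact hne0 (funext hc)
  obtain ⟨i, hi⟩ := hex
  have hiY : a i ∈ Y := Finset.mem_image_of_mem a (Finset.mem_univ i)
  obtain ⟨v, hv1⟩ := hord (a i) hiY hi
  have hn0 : (n : ℂ) ≠ 0 := by
    have : n ≠ 0 := by omega
    exact_mod_cast this
  have h1 : ((n : ℂ) + 1) * (mlt a (a i) : ℂ) = (n : ℂ) * ((v : ℂ) + 1) := by
    have h2 : 1 - cc n * (mlt a (a i) : ℂ) = -(v : ℂ) := hv1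
    have h3 : cc n * (mlt a (a i) : ℂ) = (v : ℂ) + 1 := by linear_combination -h2
    rw [← h3]
    unfold cc
    field_simp
  have h2 : (n + 1) * mlt a (a i) = n * (v + 1) := by exact_mod_cast h1
  have hdvd : n ∣ mlt a (a i) := by
    have h3 : n ∣ (n + 1) * mlt a (a i) := ⟨v + 1, h2⟩
    have h4 : Nat.Coprime n (n + 1) := by
      rw [Nat.coprime_self_add_right]
      exact Nat.coprime_one_right n
    exact h4.dvd_of_dvd_mul_left h3
  have hpos : 0 < mlt a (a i) := by
    unfold mlt
    rw [Finset.card_pos]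
    exact ⟨i, Finset.mem_filter.2 ⟨Finset.mem_univ i, rfl⟩⟩
  have hle : n ≤ mlt a (a i) := Nat.le_of_dvd hpos hdvd
  have hall : ∀ j, a j = a i := by
    have h5 : (univ.filter fun j => a j = a i) = univ := by
      apply Finset.eq_of_subset_of_card_le (Finset.filter_subset _ _)
      rw [Finset.card_univ, Fintype.card_fin]
      exact hle
    intro j
    have h6 : j ∈ (univ.filter fun j => a j = a i) := by
      rw [h5]
      exact Finset.mem_univ j
    exact (Finset.mem_filter.1 h6).2
  rw [Finset.sum_congr rfl fun j _ => hall j, Finset.sum_const, Finset.card_univ,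
    Fintype.card_fin, nsmul_eq_mul] at hsum
  rcases mul_eq_zero.1 hsum with h7 | h7
  · exact hn0 h7
  · exact hi h7

end

end Pool.Agent.Helper4.HD
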