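import Pool.Agent.Helper4.HD.Goals

/-!
Dunkl block: `S_REL` from `S_DD` (helper4).
-/

set_option autoImplicit false

namespace Pool.Agent.Helper4.HD

open MvPolynomial Finset

noncomputable section

theorem pd_X_mul {n : ℕ} (i k : Fin n) (f : P n) :
    pd i (X k * f) = (if k = i then f else 0) + X k * pd i f := by
  show pderiv i (X k * f) = (if k = i then f else 0) + X k * pderiv i f
  rw [Derivation.leibniz, smul_eq_mul, smul_eq_mul, pderiv_X]
  by_cases h : k = i
  · subst h
    rw [if_pos rfl, Pi.single_eq_same]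
    ring
  · rw [if_neg h, Pi.single_eq_of_ne h]
    ring

theorem pd_mul {n : ℕ} (i : Fin n) (f g : P n) :
    pd i (f * g) = pd i f * g + f * pd i g := by
  show pderiv i (f * g) = pderiv i f * g + f * pderiv i g
  rw [Derivation.leibniz, smul_eq_mul, smul_eq_mul]
  ring

theorem pd_C {n : ℕ} (i : Fin n) (a : ℂ) : pd i (C a : P n) = 0 := pderiv_C

theorem sw_pd {n : ℕ} (σ : Equiv.Perm (Fin n)) (i : Fin n) (f : P n) :
    sw σ (pd i f) = pd (σ i) (sw σ f) := by
  show rename σ (pderiv i f) = pderiv (σ i) (rename σ f)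
  rw [pderiv_rename σ.injective]

theorem Dk_apply {n : ℕ} (i : Fin n) (f : P n) :
    Dk i f = pd i f - cc n • ∑ j : Fin n, dd i j f := by
  unfold Dk
  rw [LinearMap.sub_apply, LinearMap.smul_apply, LinearMap.sum_apply]

theorem Dk_apply' {n : ℕ} (i : Fin n) (f : P n) :
    Dk i f = pd i f - cc n • ∑ j ∈ univ.erase i, dd i j f := by
  rw [Dk_apply, ← Finset.add_sum_erase univ _ (Finset.mem_univ i), dd_self, zero_add]

theorem rel (hDD : S_DD) : S_REL := by
  intro n i f
  refine ⟨?_, ?_, ?_, ?_, ?_, ?_, ?_⟩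
  · rw [Dk_apply', Dk_apply', pd_X_mul, if_pos rfl]
    have h : ∀ j ∈ univ.erase i, dd i j (X i * f) = X i * dd i j f + sw (Equiv.swap i j) f := by
      intro j hj
      exact (hDD n i j f f).2.2.2.1 (Finset.ne_of_mem_erase hj).symm
    rw [Finset.sum_congr rfl h, Finset.sum_add_distrib, smul_add, mul_sub, mul_smul_comm,
      Finset.mul_sum]
    abel
  · intro j hij
    rw [Dk_apply, Dk_apply, pd_X_mul, if_neg (fun h => hij h.symm), zero_add]
    have h : ∀ k ∈ (univ : Finset (Fin n)), dd i k (X j * f) =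
        X j * dd i k f - (if k = j then sw (Equiv.swap i j) f else 0) := by
      intro k _
      by_cases hk : k = j
      · subst hk
        rw [if_pos rfl]
        exact (hDD n i k f f).2.2.2.2.1 hij
      · rw [if_neg hk, sub_zero]
        exact (hDD n i k f f).2.2.2.2.2.1 j (fun h => hij h.symm) (fun h => hk h.symm)
    rw [Finset.sum_congr rfl h, Finset.sum_sub_distrib, Finset.sum_ite_eq', if_pos (mem_univ j),
      ← Finset.mul_sum, smul_sub, mul_sub, mul_smul_comm]
    abel
  · intro σ
    rw [Dk_apply, Dk_apply, map_sub, map_smul, map_sum, sw_pd]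
    congr 2
    rw [← Equiv.sum_comp σ (fun k => dd (σ i) k (sw σ f))]
    refine Finset.sum_congr rfl fun j _ => ?_
    exact (hDD n i j f f).2.2.2.2.2.2.1 σ
  · have h0 : ∑ k : Fin n, ∑ j : Fin n, dd k j f = 0 := by
      have h1 : ∑ k : Fin n, ∑ j : Fin n, dd k j f = - ∑ k : Fin n, ∑ j : Fin n, dd k j f := by
        conv_lhs => rw [Finset.sum_comm]
        rw [← Finset.sum_neg_distrib]
        refine Finset.sum_congr rfl fun k _ => ?_
        rw [← Finset.sum_neg_distrib]
        refine Finset.sum_congr rfl fun j _ => ?_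
        exact (hDD n k j f f).1
      exact self_eq_neg.1 h1
    rw [Finset.sum_congr rfl fun k _ => Dk_apply k f, Finset.sum_sub_distrib, ← Finset.smul_sum,
      h0, smul_zero, sub_zero]
    unfold dtot
    rw [LinearMap.sum_apply]
  · intro a
    rw [Dk_apply, pd_C, Finset.sum_eq_zero fun j _ => (hDD n i j f f).2.2.1 a, smul_zero, sub_zero]
  · intro hf u
    rw [Dk_apply, Dk_apply, pd_mul]
    have h : ∀ j ∈ (univ : Finset (Fin n)), dd i j (f * u) = f * dd i j u := by
      intro j _
      rw [(hDD n i j f u).2.1, hf, (hDD n i j f f).2.2.2.2.2.2.2.1 (hf _), zero_mul, zero_add]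
    rw [Finset.sum_congr rfl h, ← Finset.mul_sum, mul_sub, mul_smul_comm]
    abel
  · intro m hf
    rw [Dk_apply]
    refine IsHomogeneous.sub ?_ ?_
    · have := hf.pderiv (i := i)
      rwa [Nat.add_sub_cancel] at this
    · rw [MvPolynomial.smul_eq_C_mul]
      have h1 : (∑ j : Fin n, dd i j f).IsHomogeneous m :=
        IsHomogeneous.sum _ _ _ fun j _ => (hDD n i j f f).2.2.2.2.2.2.2.2 m hf
      have h2 := (isHomogeneous_C (Fin n) (cc n)).mul h1
      rwa [zero_add] at h2

end

end Pool.Agent.Helper4.HD
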