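import Pool.Agent.Helper4.HD.REL

/-!
Dunkl block: `S_TRL` from `S_REL` (helper4).
-/

set_option autoImplicit false

namespace Pool.Agent.Helper4.HD

open MvPolynomial Finset

noncomputable section

theorem dtot_apply {n : ℕ} (f : P n) : dtot n f = ∑ k : Fin n, pd k f := by
  unfold dtot
  rw [LinearMap.sum_apply]

theorem Tk_apply {n : ℕ} (i : Fin n) (f : P n) : Tk i f = Dk i f - ((1 : ℂ) / n) • dtot n f := by
  unfold Tk
  rw [LinearMap.sub_apply, LinearMap.smul_apply]

theorem dtot_X_mul {n : ℕ} (k : Fin n) (f : P n) : dtot n (X k * f) = X k * dtot n f + f := by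
  rw [dtot_apply, dtot_apply, Finset.sum_congr rfl fun j _ => pd_X_mul j k f,
    Finset.sum_add_distrib, Finset.sum_ite_eq, if_pos (mem_univ k), ← Finset.mul_sum]
  abel

theorem sw_dtot {n : ℕ} (σ : Equiv.Perm (Fin n)) (f : P n) :
    sw σ (dtot n f) = dtot n (sw σ f) := by
  rw [dtot_apply, dtot_apply, map_sum, ← Equiv.sum_comp σ (fun k => pd k (sw σ f))]
  exact Finset.sum_congr rfl fun k _ => sw_pd σ k f

theorem trl (hREL : S_REL) : S_TRL := by
  intro n i f
  have hn0 : (n : ℂ) ≠ 0 := by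
    have : n ≠ 0 := by
      intro h
      subst h
      exact i.elim0
    exact_mod_cast this
  have h1 : Tk i (X i * f) = X i * Tk i f + (1 - (1 : ℂ) / n) • f
      - cc n • ∑ j ∈ univ.erase i, sw (Equiv.swap i j) f := by
    rw [Tk_apply, Tk_apply, (hREL n i f).1, dtot_X_mul, smul_add, mul_sub, mul_smul_comm,
      sub_smul, one_smul]
    abel
  have h2 : ∀ j, i ≠ j → Tk i (X j * f) = X j * Tk i f + cc n • sw (Equiv.swap i j) f
      - ((1 : ℂ) / n) • f := by
    intro j hij
    rw [Tk_apply, Tk_apply, (hREL n i f).2.1 j hij, dtot_X_mul, smul_add, mul_sub, mul_smul_comm]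
    abel
  refine ⟨h1, h2, ?_, ?_, ?_, ?_, ?_⟩
  · intro σ
    rw [Tk_apply, Tk_apply, map_sub, map_smul, (hREL n i f).2.2.1 σ, sw_dtot]
  · rw [Finset.sum_congr rfl fun k _ => Tk_apply k f, Finset.sum_sub_distrib,
      (hREL n i f).2.2.2.1, Finset.sum_const, Finset.card_univ, Fintype.card_fin,
      ← Nat.cast_smul_eq_nsmul ℂ, smul_smul, mul_one_div_cancel hn0, one_smul, sub_self]
  · unfold pw
    rw [Finset.sum_mul, map_sum, ← Finset.add_sum_erase univ _ (Finset.mem_univ i)]
    have h3 : ∀ j ∈ univ.erase i, Tk i (X j ^ 1 * f) = X j ^ 1 * Tk i f +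
        cc n • sw (Equiv.swap i j) f - ((1 : ℂ) / n) • f := by
      intro j hj
      rw [pow_one]
      exact h2 j (Finset.ne_of_mem_erase hj).symm
    rw [Finset.sum_congr rfl h3, Finset.sum_sub_distrib, Finset.sum_add_distrib, pow_one, h1,
      Finset.sum_const, ← Finset.smul_sum, ← Finset.sum_mul, ← Nat.cast_smul_eq_nsmul ℂ, smul_smul,
      Finset.card_erase_of_mem (mem_univ i), Finset.card_univ, Fintype.card_fin]
    have h4 : (((n - 1 : ℕ) : ℂ) * (1 / n)) = 1 - 1 / n := by
      have h5 : 1 ≤ n := by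
        rcases Nat.eq_zero_or_pos n with h | h
        · subst h
          exact i.elim0
        · exact h
      rw [Nat.cast_sub h5, Nat.cast_one]
      field_simp
    rw [h4]
    have h6 : (∑ k : Fin n, X k ^ 1 : P n) = X i + ∑ k ∈ univ.erase i, X k ^ 1 := by
      rw [← Finset.add_sum_erase univ _ (Finset.mem_univ i), pow_one]
    rw [h6, add_mul]
    abel
  · intro a
    rw [Tk_apply, (hREL n i f).2.2.2.2.1 a, dtot_apply, Finset.sum_eq_zero fun k _ => pd_C k a,
      smul_zero, sub_zero]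
  · intro m hf
    rw [Tk_apply]
    refine IsHomogeneous.sub ((hREL n i f).2.2.2.2.2.2 m hf) ?_
    rw [MvPolynomial.smul_eq_C_mul, dtot_apply]
    have h1 : (∑ k : Fin n, pd k f).IsHomogeneous m := by
      refine IsHomogeneous.sum _ _ _ fun k _ => ?_
      have := hf.pderiv (i := k)
      rwa [Nat.add_sub_cancel] at this
    have h2 := (isHomogeneous_C (Fin n) ((1 : ℂ) / n)).mul h1
    rwa [zero_add] at h2

end

end Pool.Agent.Helper4.HD
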