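import Pool.Agent.Helper4.HD.Exh
import Pool.Agent.Helper4.HD.HM
import Pool.Agent.Helper4.HD.FDM
import Pool.Agent.Helper4.HD.NIL
import Pool.Agent.Helper4.HD.DD
import Pool.Agent.Helper4.HD.REL
import Pool.Agent.Helper4.HD.TRL
import Pool.Agent.Helper13.HD.PSF
import Pool.Agent.Helper13.HD.VAN
import Pool.Agent.Helper14.HD.ORD
import Pool.Agent.Helper26.HD.DGG
import Pool.Agent.Helper35.HD.SNG
import Pool.Agent.Helper40.HD.EUL
import Pool.Agent.Helper40.HD.GG
import Pool.Agent.Helper60.HD.POL
import Pool.Agent.Helper93.HD.STB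
import Pool.Agent.Helper66.HD.COM

/-!
Dunkl block of the lower half of Haiman's theorem: assembly (helper4).
-/

set_option autoImplicit false

namespace Pool.Agent.Helper4.HD

/-- the Dunkl block: `S_EXH`, up to the commutativity `S_COM`. -/
theorem exh_of_com (hCOM : S_COM) : Pool.Agent.Helper19.HM.S_EXH :=
  exh
    (hm (trl (rel dd_)) hCOM
      (Pool.Agent.Helper93.HD.stb (trl (rel dd_)) Pool.Agent.Helper40.HD.GG.gg
        (Pool.Agent.Helper35.HD.sng (rel dd_) Pool.Agent.Helper40.HD.GG.gg
          Pool.Agent.Helper26.HD.dgg))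
      (fdm (nil Pool.Agent.Helper13.HD.psf Pool.Agent.Helper13.HD.van Pool.Agent.Helper60.HD.pol
        Pool.Agent.Helper14.HD.ord)))
    Pool.Agent.Helper40.HD.eul

/-- **The Dunkl block**: for every `n ≥ 2` there is a nonzero finite-dimensional graded quotient of
`ℂ[x_1, …, x_n]` with an action of the rational Cherednik algebra, `c = (n+1)/n`. -/
theorem exh_all : Pool.Agent.Helper19.HM.S_EXH :=
  exh_of_com (Pool.Agent.Helper66.HD.com (rel dd_))

end Pool.Agent.Helper4.HD
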