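import Mathlib

/-!
Project SQ (MP_bb32d1_al), lower half of Haiman's theorem, DUNKL BLOCK: definitions (helper4).

`P n = ℂ[x_1, …, x_n]`, `cc n = (n+1)/n`, divided differences `dd i j f = (f - s_ij f)/(x_i - x_j)`,
Dunkl operators `Dk i = ∂_i - c ∑_{j ≠ i} dd i j`, `Tk i = Dk i - (1/n) ∑_k ∂_k`, the polynomials
`gg m`, `ff i m` with `∏_j (1 - x_j t)^c = ∑ gg m t^m`, `∏_j (1 - x_j t)^c / (1 - x_i t) = ∑ ff i m t^m`,
the ideal `Jd n = (ff 1 (n+1), …, ff n (n+1), x_1 + … + x_n)`.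
-/

set_option autoImplicit false

namespace Pool.Agent.Helper4.HD

open MvPolynomial Finset

noncomputable section

/-- `ℂ[x_1, …, x_n]`. -/
abbrev P (n : ℕ) : Type := MvPolynomial (Fin n) ℂ

/-- the parameter `c = (n+1)/n`. -/
def cc (n : ℕ) : ℂ := ((n : ℂ) + 1) / n

/-- `σ` acts by `x_k ↦ x_{σ k}`. -/
def sw {n : ℕ} (σ : Equiv.Perm (Fin n)) : P n →ₐ[ℂ] P n := rename σ

theorem sw_X {n : ℕ} (σ : Equiv.Perm (Fin n)) (k : Fin n) : sw σ (X k) = X (σ k) := rename_X _ _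

theorem sw_C {n : ℕ} (σ : Equiv.Perm (Fin n)) (a : ℂ) : sw σ (C a) = C a := rename_C _ _

theorem sw_mul_apply {n : ℕ} (σ τ : Equiv.Perm (Fin n)) (f : P n) :
    sw (σ * τ) f = sw σ (sw τ f) := by
  unfold sw
  rw [rename_rename]
  rfl

theorem sw_one_apply {n : ℕ} (f : P n) : sw (1 : Equiv.Perm (Fin n)) f = f := by
  unfold sw
  exact rename_id_apply f

theorem dd_exists {n : ℕ} (i j : Fin n) (f : P n) :
    ∃ g : P n, (X i - X j) * g = f - sw (Equiv.swap i j) f := by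
  induction f using MvPolynomial.induction_on with
  | C a =>
    refine ⟨0, ?_⟩
    rw [sw_C]
    ring
  | add p q hp hq =>
    obtain ⟨g, hg⟩ := hp
    obtain ⟨h, hh⟩ := hq
    refine ⟨g + h, ?_⟩
    rw [mul_add, hg, hh, map_add]
    ring
  | mul_X p k hp =>
    obtain ⟨g, hg⟩ := hp
    rw [map_mul, sw_X]
    by_cases hki : k = i
    · refine ⟨g * X k + sw (Equiv.swap i j) p, ?_⟩
      rw [hki, Equiv.swap_apply_left]
      have : (X i - X j) * (g * X i + sw (Equiv.swap i j) p) =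
          ((X i - X j) * g) * X i + (X i - X j) * sw (Equiv.swap i j) p := by ring
      rw [this, hg]
      ring
    · by_cases hkj : k = j
      · refine ⟨g * X k - sw (Equiv.swap i j) p, ?_⟩
        rw [hkj, Equiv.swap_apply_right]
        have : (X i - X j) * (g * X j - sw (Equiv.swap i j) p) =
            ((X i - X j) * g) * X j - (X i - X j) * sw (Equiv.swap i j) p := by ring
        rw [this, hg]
        ring
      · refine ⟨g * X k, ?_⟩
        rw [Equiv.swap_apply_of_ne_of_ne hki hkj]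
        have : (X i - X j) * (g * X k) = ((X i - X j) * g) * X k := by ring
        rw [this, hg]
        ring

theorem X_sub_X_ne {n : ℕ} {i j : Fin n} (h : i ≠ j) : (X i - X j : P n) ≠ 0 := by
  intro h0
  exact h (MvPolynomial.X_injective (R := ℂ) (sub_eq_zero.1 h0))

/-- the divided difference `(f - s_ij f)/(x_i - x_j)` (zero for `i = j`). -/
def ddf {n : ℕ} (i j : Fin n) (f : P n) : P n :=
  if i = j then 0 else Classical.choose (dd_exists i j f)

theorem ddf_spec {n : ℕ} {i j : Fin n} (h : i ≠ j) (f : P n) :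
    (X i - X j) * ddf i j f = f - sw (Equiv.swap i j) f := by
  unfold ddf
  rw [if_neg h]
  exact Classical.choose_spec (dd_exists i j f)

/-- the divided difference as a linear map. -/
def dd {n : ℕ} (i j : Fin n) : P n →ₗ[ℂ] P n where
  toFun := ddf i j
  map_add' f g := by
    by_cases h : i = j
    · unfold ddf
      rw [if_pos h, if_pos h, if_pos h, add_zero]
    · apply mul_left_cancel₀ (X_sub_X_ne h)
      rw [mul_add, ddf_spec h, ddf_spec h, ddf_spec h, map_add]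
      ring
  map_smul' a f := by
    by_cases h : i = j
    · unfold ddf
      rw [if_pos h, if_pos h, smul_zero]
    · apply mul_left_cancel₀ (X_sub_X_ne h)
      rw [RingHom.id_apply, mul_smul_comm, ddf_spec h, ddf_spec h, map_smul, smul_sub]

theorem dd_spec {n : ℕ} {i j : Fin n} (h : i ≠ j) (f : P n) :
    (X i - X j) * dd i j f = f - sw (Equiv.swap i j) f := ddf_spec h f

theorem dd_self {n : ℕ} (i : Fin n) (f : P n) : dd i i f = 0 := by
  show ddf i i f = 0
  unfold ddf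
  rw [if_pos rfl]

/-- `∂_i` as a linear map. -/
def pd {n : ℕ} (i : Fin n) : P n →ₗ[ℂ] P n := (pderiv i : Derivation ℂ (P n) (P n)).toLinearMap

/-- the Dunkl operator `∂_i - c ∑_{j ≠ i} (1 - s_ij)/(x_i - x_j)`. -/
def Dk {n : ℕ} (i : Fin n) : P n →ₗ[ℂ] P n :=
  pd i - cc n • ∑ j : Fin n, dd i j

/-- `∑_k ∂_k`. -/
def dtot (n : ℕ) : P n →ₗ[ℂ] P n := ∑ k : Fin n, pd k

/-- the reduced Dunkl operator `Dk i - (1/n) ∑_k ∂_k`. -/
def Tk {n : ℕ} (i : Fin n) : P n →ₗ[ℂ] P n := Dk i - ((1 : ℂ) / n) • dtot n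

/-- the power sum `∑_k x_k^a`. -/
def pw (n a : ℕ) : P n := ∑ k : Fin n, X k ^ a

/-- the coefficients of `∏_j (1 - x_j t)^c`: `gg 0 = 1`,
`(m+1) gg (m+1) = - c ∑_{a ≤ m} p_{a+1} gg (m-a)`. -/
def gg (n : ℕ) : ℕ → P n
  | 0 => 1
  | m + 1 => C (-(cc n) / ((m : ℂ) + 1)) * ∑ a : Fin (m + 1), pw n ((a : ℕ) + 1) * gg n (m - a)
termination_by m => m
decreasing_by omega

/-- the coefficients of `∏_j (1 - x_j t)^c / (1 - x_i t)`. -/
def ff {n : ℕ} (i : Fin n) (m : ℕ) : P n := ∑ a ∈ range (m + 1), X i ^ a * gg n (m - a)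

/-- the ideal generated by `ff i (n+1)` and by `x_1 + … + x_n`. -/
def Jd (n : ℕ) : Ideal (P n) :=
  Ideal.span (Set.range (fun i : Fin n => ff i (n + 1)) ∪ {pw n 1})

/-- the Euler operator `∑_i x_i ∂_i`. -/
def eu (n : ℕ) : P n →ₗ[ℂ] P n := ∑ i : Fin n, (LinearMap.mulLeft ℂ (X i : P n)) ∘ₗ pd i

/-- A finite-dimensional graded quotient `V` of `ℂ[x_1, …, x_n]` on which the operators `x_i`,
`y_i = Tk i` and the permutations act. -/
structure HMod (n : ℕ) (V : Type) [AddCommGroup V] [Module ℂ V] where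
  pr : P n →ₗ[ℂ] V
  surj : Function.Surjective pr
  fd : FiniteDimensional ℂ V
  one_ne : pr 1 ≠ 0
  homog : ∀ f, pr f = 0 → ∀ d, pr (homogeneousComponent d f) = 0
  x : Fin n → Module.End ℂ V
  y : Fin n → Module.End ℂ V
  s : Equiv.Perm (Fin n) → Module.End ℂ V
  x_pr : ∀ i f, x i (pr f) = pr (X i * f)
  y_pr : ∀ i f, y i (pr f) = pr (Tk i f)
  s_pr : ∀ g f, s g (pr f) = pr (sw g f)
  sum_x : ∑ i, x i = 0
  sum_y : ∑ i, y i = 0
  s_one : s 1 = 1
  s_mul : ∀ g h, s (g * h) = s g * s h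
  s_x : ∀ g i, s g * x i = x (g i) * s g
  s_y : ∀ g i, s g * y i = y (g i) * s g
  x_comm : ∀ i j, x i * x j = x j * x i
  y_comm : ∀ i j, y i * y j = y j * y i
  y_x_ne : ∀ i j, i ≠ j →
    y i * x j - x j * y i = cc n • s (Equiv.swap i j) - ((1 : ℂ) / n) • 1
  y_x_eq : ∀ i, y i * x i - x i * y i =
    (1 - (1 : ℂ) / n) • 1 - cc n • ∑ j ∈ univ.erase i, s (Equiv.swap i j)

end

end Pool.Agent.Helper4.HD
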