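import Pool.Agent.Helper4.HD.Goals
import Pool.Agent.Helper19.HM.Goals

/-!
The bridge from the Dunkl block to the module block: `S_HM → S_EUL → S_EXH` (helper4).
-/

set_option autoImplicit false

namespace Pool.Agent.Helper4.HD

open MvPolynomial Finset

noncomputable section

theorem exists_factor {A B C : Type} [AddCommGroup A] [Module ℂ A] [AddCommGroup B] [Module ℂ B]
    [AddCommGroup C] [Module ℂ C] (f : A →ₗ[ℂ] B) (hf : Function.Surjective f) (g : A →ₗ[ℂ] C)
    (h : ∀ a, f a = 0 → g a = 0) : ∃ k : B →ₗ[ℂ] C, ∀ a, k (f a) = g a := by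
  refine ⟨((LinearMap.ker f).liftQ g ?_) ∘ₗ
    ((f.quotKerEquivOfSurjective hf).symm : B →ₗ[ℂ] (A ⧸ LinearMap.ker f)), ?_⟩
  · intro a ha
    rw [LinearMap.mem_ker] at ha ⊢
    exact h a ha
  · intro a
    have h1 : (f.quotKerEquivOfSurjective hf).symm (f a) = Submodule.Quotient.mk a := by
      rw [LinearEquiv.symm_apply_eq]
      rfl
    rw [LinearMap.comp_apply, LinearEquiv.coe_coe, h1]
    rfl

theorem exh (hHM : S_HM) (hEUL : S_EUL) : Pool.Agent.Helper19.HM.S_EXH := by
  intro n hn
  obtain ⟨M, hM⟩ := hHM n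
  have hn0 : (n : ℂ) ≠ 0 := by
    have : n ≠ 0 := by omega
    exact_mod_cast this
  have hker : ∀ f, M.pr f = 0 → (M.pr ∘ₗ eu n) f = 0 := by
    intro f hf
    have h1 : f = ∑ d ∈ range (f.totalDegree + 1), homogeneousComponent d f :=
      (sum_homogeneousComponent f).symm
    rw [LinearMap.comp_apply]
    rw [h1, map_sum, map_sum]
    refine Finset.sum_eq_zero fun d _ => ?_
    rw [(hEUL n (homogeneousComponent d f)).2.2 d (homogeneousComponent_isHomogeneous d f),
      map_smul, M.homog f hf d, smul_zero]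
  obtain ⟨E, hE⟩ := exists_factor M.pr M.surj (M.pr ∘ₗ eu n) hker
  have hpw : ∀ f, M.pr (pw n 1 * f) = 0 := by
    intro f
    have h1 : M.pr (pw n 1 * f) = (∑ i, M.x i) (M.pr f) := by
      rw [LinearMap.sum_apply]
      rw [Finset.sum_congr rfl fun i _ => M.x_pr i f, ← map_sum, ← Finset.sum_mul]
      unfold pw
      congr 2
      refine Finset.sum_congr rfl fun i _ => ?_
      rw [pow_one]
    rw [h1, M.sum_x]
    rfl
  refine ⟨P n ⧸ Jd n, inferInstance, inferInstance, M.fd, ⟨M.pr 1, 0, M.one_ne⟩, ⟨?_⟩⟩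
  refine
    { x := M.x, y := M.y, s := M.s, s_one := M.s_one, s_mul := M.s_mul, xx := M.x_comm
      yy := M.y_comm, sx := M.s_x, sy := M.s_y, sumx := M.sum_x, sumy := M.sum_y
      yx := M.y_x_ne, pi := M.pr, surj := M.surj, pi_X := fun i f => (M.x_pr i f).symm
      pi_s := fun g f => (M.s_pr g f).symm, eu := E, eu_pi := ?_, xy := ?_ }
  · intro k f hf
    rw [hE, LinearMap.comp_apply, (hEUL n f).2.2 k hf, map_smul]
  · refine LinearMap.ext fun v => ?_
    obtain ⟨f, rfl⟩ := M.surj v
    have h2 := (hEUL n f).2.1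
    have h1 := (hEUL n f).1
    have hL : (∑ i, M.x i * M.y i) (M.pr f) = M.pr (∑ i : Fin n, X i * Dk i f) := by
      have h3 : (∑ i, M.x i * M.y i) (M.pr f) = M.pr (∑ i : Fin n, X i * Tk i f) := by
        rw [LinearMap.sum_apply, map_sum]
        refine Finset.sum_congr rfl fun i _ => ?_
        rw [Module.End.mul_apply, M.y_pr, M.x_pr]
      rw [h3, h2, map_sub, map_smul, hpw, smul_zero, sub_zero]
    have hinj : ∀ u w : P n ⧸ Jd n, (2 : ℂ) • u = (2 : ℂ) • w → u = w := by
      intro u w huw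
      have := congrArg (fun z => ((2 : ℂ)⁻¹) • z) huw
      simp only [smul_smul] at this
      rw [inv_mul_cancel₀ (two_ne_zero), one_smul, one_smul] at this
      exact this
    apply hinj
    rw [hL, ← map_smul, h1, map_sub, map_smul, map_smul, LinearMap.sub_apply, hE,
      LinearMap.comp_apply, smul_sub, LinearMap.smul_apply, smul_smul]
    have hc : (2 : ℂ) * (Pool.Agent.Helper19.HM.cc n / 2) = cc n := by
      unfold Pool.Agent.Helper19.HM.cc cc
      ring
    rw [hc]
    congr 2
    rw [map_sum, LinearMap.sum_apply]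
    refine Finset.sum_congr rfl fun i _ => ?_
    rw [map_sum, LinearMap.sum_apply, ← Finset.sum_erase_add _ _ (Finset.mem_univ i)]
    have hz : M.pr (f - sw (Equiv.swap i i) f) = 0 := by
      rw [Equiv.swap_self]
      have : sw (Equiv.refl (Fin n)) f = f := sw_one_apply f
      rw [this, sub_self, map_zero]
    rw [hz, add_zero]
    refine Finset.sum_congr rfl fun j _ => ?_
    rw [map_sub, LinearMap.sub_apply, Module.End.one_apply, M.s_pr]

end

end Pool.Agent.Helper4.HD
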