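import Pool.Agent.Helper4.HD.Defs

/-!
Project SQ (MP_bb32d1_al), lower half of Haiman's theorem, DUNKL BLOCK: goals (helper4).

Every goal is a `def S_XXX : Prop`; a packet proves `theorem xxx : S_XXX` (or `S_AAA → S_XXX` if it uses
the goals it is allowed to use).  The final statement is `S_HM`: the quotient of `ℂ[x_1, …, x_n]` by `Jd n` is a
nonzero finite-dimensional graded module over the rational Cherednik algebra with `c = (n+1)/n`.
-/

set_option autoImplicit false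

namespace Pool.Agent.Helper4.HD

open MvPolynomial Finset

noncomputable section

/-- **DD** (1 h, no hypotheses).  Basic properties of the divided differences.
PROOF.  Everything follows from `dd_spec` by cancelling the factor `X i - X j ≠ 0` (`X_sub_X_ne`,
`mul_left_cancel₀`); for `i = j` use `dd_self`.  Write `s = sw (swap i j)`; `s (s f) = f`.
(a) `(X i - X j) (dd j i f) = -(f - s f)` (`Equiv.swap_comm`).
(b) twisted Leibniz rule: `f g - s f s g = (f - s f) g + s f (g - s g)`.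
(d) from (b) with `f = X k`, or directly.
(e) `sw σ (swap i j) = (swap (σ i) (σ j)) sw σ`: `σ * swap i j = swap (σ i) (σ j) * σ`
(`Equiv.swap_apply_apply` or `Equiv.Perm` extensionality), apply `sw σ` to `dd_spec`.
(f) `f - s f = 0`.
(g) the product `(X i - X j) * dd i j f = f - s f` is homogeneous of degree `m + 1`, and a factor of
a nonzero homogeneous polynomial is homogeneous; here simply: the component of degree `d` of `g` times
`X i - X j` is the component of degree `d + 1` of the product, so it is `0` for `d ≠ m`.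
(An alternative for (g): induction over monomials with (b), (d).) -/
def S_DD : Prop :=
  ∀ (n : ℕ) (i j : Fin n) (f g : P n),
    dd j i f = - dd i j f ∧
    dd i j (f * g) = dd i j f * g + sw (Equiv.swap i j) f * dd i j g ∧
    (∀ a : ℂ, dd i j (C a) = 0) ∧
    (i ≠ j → dd i j (X i * f) = X i * dd i j f + sw (Equiv.swap i j) f) ∧
    (i ≠ j → dd i j (X j * f) = X j * dd i j f - sw (Equiv.swap i j) f) ∧
    (∀ k, k ≠ i → k ≠ j → dd i j (X k * f) = X k * dd i j f) ∧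
    (∀ σ : Equiv.Perm (Fin n), sw σ (dd i j f) = dd (σ i) (σ j) (sw σ f)) ∧
    (sw (Equiv.swap i j) f = f → dd i j f = 0) ∧
    (∀ m, f.IsHomogeneous (m + 1) → (dd i j f).IsHomogeneous m)

/-- **REL** (1 h, hypothesis allowed: `S_DD`).  The relations of the Dunkl operators `Dk`.
PROOF.  `pd i (X k f) = (if k = i then f else 0) + X k pd i f` (`Derivation.leibniz`, `pderiv_X`);
`Dk i g = pd i g - c ∑_j dd i j g` (the term `j = i` is `0`).
(1) `dd i j (X i f) = X i dd i j f + s_ij f` for `j ≠ i`.  (2) only the term `k = j` of the sum has a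
correction: `dd i j (X j f) = X j dd i j f - s_ij f`.  (3) `sw σ (pd i f) = pd (σ i) (sw σ f)`
(`MvPolynomial.pderiv_rename` with `σ.injective`) and `S_DD` (e), reindex the sum by `σ`.
(4) `∑_i ∑_j dd i j f = 0` since `dd j i f = - dd i j f` (swap the sums: `S = -S`).
(6) `dd i j (f u) = dd i j f * u + s_ij f * dd i j u = f * dd i j u`.
(7) `pderiv` of a homogeneous polynomial (`MvPolynomial.IsHomogeneous.pderiv`), `S_DD` (g). -/
def S_REL : Prop :=
  ∀ (n : ℕ) (i : Fin n) (f : P n),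
    Dk i (X i * f) = X i * Dk i f + f - cc n • ∑ j ∈ univ.erase i, sw (Equiv.swap i j) f ∧
    (∀ j, i ≠ j → Dk i (X j * f) = X j * Dk i f + cc n • sw (Equiv.swap i j) f) ∧
    (∀ σ : Equiv.Perm (Fin n), sw σ (Dk i f) = Dk (σ i) (sw σ f)) ∧
    (∑ k : Fin n, Dk k f = dtot n f) ∧
    (∀ a : ℂ, Dk i (C a) = 0) ∧
    ((∀ σ : Equiv.Perm (Fin n), sw σ f = f) → ∀ u, Dk i (f * u) = pd i f * u + f * Dk i u) ∧
    (∀ m, f.IsHomogeneous (m + 1) → (Dk i f).IsHomogeneous m)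

/-- **COM** (1.5 h, hypothesis allowed: `S_REL`).  The Dunkl operators commute.
PROOF.  (A) Let `K f = Dk i (Dk j f) - Dk j (Dk i f)`, `i ≠ j`.  Claim: `K (X k f) = X k (K f)` for all
`k`; since `K (C a) = 0`, `MvPolynomial.induction_on` gives `K = 0`.  From `S_REL` (1), (2) write
`Dk i (X k f) = X k Dk i f + A_ik f`, where `A_ik = c s_ik` for `k ≠ i` and
`A_ii = 1 - c ∑_{l ≠ i} s_il`.  Then
`K (X k f) = X k K f + A_ik Dk j f + Dk i (A_jk f) - A_jk Dk i f - Dk j (A_ik f)`, and with the notation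
`[D, A] = D A - A D` the last four terms are `[Dk i, A_jk] f - [Dk j, A_ik] f`.
`Dk i s_lm = s_lm Dk (s_lm i)` (`S_REL` (3)).
`k ≠ i, j`: `[Dk i, c s_jk] = 0` and `[Dk j, c s_ik] = 0`.
`k = j`: `[Dk i, 1 - c ∑_{l ≠ j} s_jl] = - c [Dk i, s_ji]` (the terms `l ≠ i` commute with `Dk i`), and
`[Dk j, c s_ij]`; `[Dk i, s] + [Dk j, s] = 0` for `s = s_ij`, as `Dk i s = s Dk j`, `Dk j s = s Dk i`.
`k = i`: the same with the roles of `i` and `j` exchanged.
(B) `dtot n f = ∑_k Dk k f`, so `dtot` commutes with every `Dk i`; `Tk i = Dk i - (1/n) dtot n`. -/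
def S_COM : Prop :=
  ∀ (n : ℕ) (i j : Fin n) (f : P n),
    Dk i (Dk j f) = Dk j (Dk i f) ∧ dtot n (Dk i f) = Dk i (dtot n f) ∧
    Tk i (Tk j f) = Tk j (Tk i f)

/-- **TRL** (1 h, hypothesis allowed: `S_REL`).  The relations of the reduced operators `Tk`.
PROOF.  `Tk i f = Dk i f - (1/n) dtot n f`, `dtot n (X k f) = X k dtot n f + f`,
`dtot n (sw σ f) = sw σ (dtot n f)`, `n ≠ 0` because of `i : Fin n`.
(4) `∑_i Tk i f = dtot n f - n (1/n) dtot n f = 0`.  (5) `Tk i` commutes with the multiplication by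
`p_1 = ∑_k X k`: sum (1) and (2): the commutator is
`(1 - 1/n) f - c ∑_{j ≠ i} s_ij f + ∑_{j ≠ i} (c s_ij f - (1/n) f) = (1 - 1/n - (n-1)/n) f = 0`. -/
def S_TRL : Prop :=
  ∀ (n : ℕ) (i : Fin n) (f : P n),
    Tk i (X i * f) = X i * Tk i f + (1 - (1 : ℂ) / n) • f
      - cc n • ∑ j ∈ univ.erase i, sw (Equiv.swap i j) f ∧
    (∀ j, i ≠ j → Tk i (X j * f) = X j * Tk i f + cc n • sw (Equiv.swap i j) f
      - ((1 : ℂ) / n) • f) ∧
    (∀ σ : Equiv.Perm (Fin n), sw σ (Tk i f) = Tk (σ i) (sw σ f)) ∧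
    (∑ k : Fin n, Tk k f = 0) ∧
    (Tk i (pw n 1 * f) = pw n 1 * Tk i f) ∧
    (∀ a : ℂ, Tk i (C a) = 0) ∧
    (∀ m, f.IsHomogeneous (m + 1) → (Tk i f).IsHomogeneous m)

/-- **EUL** (0.8 h, no hypotheses).  The Euler operator.
PROOF.  (1) `Dk i f = pd i f - c ∑_j dd i j f`; `2 ∑_i ∑_j X i dd i j f =
∑_i ∑_j (X i dd i j f + X j dd j i f)` (exchange the names in one half) and for `i ≠ j`
`X i dd i j f + X j dd j i f = (X i - X j) dd i j f = f - s_ij f` (`dd j i f = - dd i j f` from `dd_spec` by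
cancellation); for `i = j` both sides are `0` (`Equiv.swap_self`, `sw_one_apply`, `dd_self`).
(2) definition of `Tk`, `pw n 1 = ∑ X k`.  (3) `MvPolynomial.IsHomogeneous.sum_X_mul_pderiv`. -/
def S_EUL : Prop :=
  ∀ (n : ℕ) (f : P n),
    (2 : ℂ) • ∑ i : Fin n, X i * Dk i f =
      (2 : ℂ) • eu n f - cc n • ∑ i : Fin n, ∑ j : Fin n, (f - sw (Equiv.swap i j) f) ∧
    (∑ i : Fin n, X i * Tk i f = ∑ i : Fin n, X i * Dk i f - ((1 : ℂ) / n) • (pw n 1 * dtot n f)) ∧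
    (∀ d : ℕ, f.IsHomogeneous d → eu n f = (d : ℂ) • f)

/-- **GG** (1 h, no hypotheses).  Properties of `gg` and `ff`.
PROOF.  `gg n (m+1) = C (-c/(m+1)) * ∑_{a ≤ m} pw n (a+1) * gg n (m-a)` (unfold, `gg.eq_2`), strong
induction on `m` for (1) and (4); `sw σ (pw n a) = pw n a`.  (3) `ff i (m+1) = ∑_{a ≤ m+1} X i^a gg (m+1-a)`:
split off `a = 0` (`Finset.sum_range_succ'`).
(5) `∑_i ff i m = n gg m + ∑_{a=1}^{m} pw a gg (m-a)` and `m gg m = - c ∑_{a=1}^{m} pw a gg (m-a)`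
(the definition). -/
def S_GG : Prop :=
  ∀ (n m : ℕ) (σ : Equiv.Perm (Fin n)),
    sw σ (gg n m) = gg n m ∧
    (∀ i : Fin n, sw σ (ff i m) = ff (σ i) m) ∧
    (∀ i : Fin n, ff i 0 = 1 ∧ ff i (m + 1) = X i * ff i m + gg n (m + 1)) ∧
    ((gg n m).IsHomogeneous m ∧ ∀ i : Fin n, (ff i m).IsHomogeneous m) ∧
    cc n • ∑ i : Fin n, ff i m = (cc n * n - m) • gg n m

/-- **DGG** (1 h, hypothesis allowed: `S_GG`).  `∂_j gg (m+1) = - c ff j m`.
PROOF.  Strong induction on `m`.  `(m+1) gg (m+1) = - c ∑_{a ≤ m} pw (a+1) gg (m-a)`, apply `∂_j`: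
`∂_j pw (a+1) = (a+1) x_j^a`, `∂_j gg (m-a) = - c ff j (m-a-1)` for `a < m`, `∂_j gg 0 = 0`.  So
`(m+1) ∂_j gg (m+1) = - c [∑_{a ≤ m} (a+1) x_j^a gg (m-a) - c ∑_{a < m} pw (a+1) ff j (m-1-a)]`.
With `ff j (m-1-a) = ∑_b x_j^b gg (m-1-a-b)` the second sum is
`∑_{b < m} x_j^b (- c ∑_{a ≤ m-1-b} pw (a+1) gg (m-b-1-a)) = ∑_{b < m} (m-b) x_j^b gg (m-b)`.
Adding, the bracket is `∑_{b ≤ m} (b + 1 + m - b) x_j^b gg (m-b) = (m+1) ff j m`. -/
def S_DGG : Prop :=
  ∀ (n m : ℕ) (j : Fin n), pd j (gg n (m + 1)) = - (cc n • ff j m)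

/-- **SNG** (1 h, hypotheses allowed: `S_REL`, `S_GG`, `S_DGG`).  `ff j (n+1)` is singular.
PROOF.  `gg` is symmetric, so `Dk i (gg n (m+1)) = pd i (gg n (m+1)) = - c ff i m` (`S_REL` (6) with `u = 1`, or
all `dd i k` vanish on it).
(A) `i ≠ j`: `ff j (m+1) = X j ff j m + gg (m+1)`, so
`Dk i (ff j (m+1)) = X j Dk i (ff j m) + c s_ij (ff j m) - c ff i m = X j Dk i (ff j m) = 0` by induction
(`s_ij (ff j m) = ff i m`); `ff j 0 = 1`.
(B) `Dk i (ff i (m+1)) = X i Dk i (ff i m) + ff i m - c ∑_{k ≠ i} ff k m - c ff i m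
= X i Dk i (ff i m) + ff i m - (c n - m) gg m` (`S_GG` (5)).  By induction on `m` this is
`(m + 1 - c n) ff i m`: for `m = 0`: `1 - c n`; step:
`X i (m - c n) ff i (m-1) + ff i m + (m - c n) gg m = (m - c n) ff i m + ff i m`.
(C) `m + 1 = n + 1 = c n` gives `Dk i (ff i (n+1)) = 0`, so all `Dk i (ff j (n+1)) = 0`,
`dtot n (ff j (n+1)) = ∑_k Dk k (ff j (n+1)) = 0`, `Tk i (ff j (n+1)) = 0`. -/
def S_SNG : Prop :=
  ∀ (n : ℕ) (i j : Fin n),
    (i ≠ j → ∀ m, Dk i (ff j m) = 0) ∧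
    (∀ m : ℕ, Dk i (ff i (m + 1)) = ((m : ℂ) + 1 - cc n * n) • ff i m) ∧
    Dk i (ff j (n + 1)) = 0 ∧ Tk i (ff j (n + 1)) = 0

/-- **STB** (1.5 h, hypotheses allowed: `S_TRL`, `S_GG`, `S_SNG`).  The ideal `Jd n` is stable.
PROOF.  (2) `sw σ` permutes the generators.  (1) By `Submodule.span_induction` / the description of an
element of the ideal as a sum of products `a * g` with `g` a generator it is enough to show
`Tk i (a * g) ∈ Jd n` for all `a`: induction on `a` (`MvPolynomial.induction_on`): `a = C z`: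
`Tk i (z • g) = z • Tk i g`, `Tk i (ff j (n+1)) = 0` and `Tk i (pw n 1 * 1) = pw n 1 * Tk i 1 = 0`; `a = b * X k`:
`Tk i (X k * (b g)) = X k * Tk i (b g) +` (a combination of `b g` and of `sw τ (b g)`), all in `Jd n` by induction
and (2).
(3) The ideal is generated by homogeneous elements: `Ideal.homogeneous_span` for the grading
`MvPolynomial.homogeneousSubmodule` (`MvPolynomial.gradedAlgebra`), `MvPolynomial.decomposition.decompose'_apply`;
or directly: `homogeneousComponent d (a * g) = (homogeneousComponent (d - e) a) * g` for `g` homogeneous of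
degree `e ≤ d`, and `0` for `e > d`.  (4) The generators have degree `n + 1` and `1`, so `constantCoeff` vanishes on
`Jd n`. -/
def S_STB : Prop :=
  ∀ (n : ℕ) (f : P n), f ∈ Jd n →
    (∀ i : Fin n, Tk i f ∈ Jd n) ∧ (∀ σ : Equiv.Perm (Fin n), sw σ f ∈ Jd n) ∧
    (∀ d, homogeneousComponent d f ∈ Jd n) ∧ constantCoeff f = 0

/-- the number of `i` with `a i = y`. -/
def mlt {n : ℕ} (a : Fin n → ℂ) (y : ℂ) : ℕ := (univ.filter fun i => a i = y).card

/-- `∏_{y ∈ S} (1 - y t)` as a power series. -/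
def pr1 (S : Finset ℂ) : PowerSeries ℂ := ∏ y ∈ S, (1 - PowerSeries.C y * PowerSeries.X)

/-- **PSF** (2 h, no hypotheses).  The power series `H = ∏_i (1 - a_i t)^c / ∏_{y ∈ Y} (1 - y t)` at a point
`a`, where `Y` is the set of the distinct values.
PROOF.  Let `geo y = PowerSeries.mk fun k => y^k`, `geo y * (1 - y t) = 1`.  Let
`G = PowerSeries.mk fun m => eval a (gg n m)`.  The recursion for `gg` gives
`(m+1) G_{m+1} = - c ∑_{s ≤ m} (∑_i a_i^{s+1}) G_{m-s}`, that is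
`G' = - c (∑_i a_i geo(a_i)) G = - c (∑_{y ∈ Y} mlt(y) y geo(y)) G` (`PowerSeries.derivative` or
`PowerSeries.derivativeFun`, `Finset.sum_fiberwise`/`sum_comp`).  Put `H = G * ∏_{y ∈ Y} geo y`.  As
`(geo y)' = y (geo y)^2` (differentiate `geo y (1 - y t) = 1`), `H' = (∑_{y ∈ Y} (1 - c mlt y) y geo y) H`;
multiply by `∏_{y ∈ Y} (1 - y t)`: `∏_{z ∈ Y} (1 - z t) geo y = ∏_{z ∈ Y, z ≠ y} (1 - z t)`.
`eval a (ff i m) = ∑_{s ≤ m} a_i^s G_{m-s} = coeff m (geo(a_i) G)` and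
`geo(a_i) G = geo(a_i) ∏_{y ∈ Y} (1 - y t) H = ∏_{y ∈ Y, y ≠ a_i} (1 - y t) H`. -/
def S_PSF : Prop :=
  ∀ (n : ℕ) (a : Fin n → ℂ), ∃ H : PowerSeries ℂ, PowerSeries.constantCoeff H = 1 ∧
    pr1 (univ.image a) * PowerSeries.derivative ℂ H =
      (∑ y ∈ univ.image a, PowerSeries.C ((1 - cc n * mlt a y) * y) *
        pr1 ((univ.image a).erase y)) * H ∧
    ∀ (i : Fin n) (m : ℕ), eval a (ff i m) =
      PowerSeries.coeff m (pr1 ((univ.image a).erase (a i)) * H)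

/-- **VAN** (1.5 h, no hypotheses).  Pure power series.
PROOF.  For `S ⊆ Y` put `U S = pr1 (Y \ S) * H`.  Claim: for `S` nonempty, `coeff k (U S) = 0` for
`r + 1 - |S| ≤ k ≤ r` (natural numbers, `|S| ≤ |Y| ≤ r`).  Induction on `|S|`.  `|S| = 1`: the hypothesis.  Step: let `y ≠ z` in `S`,
`S = S' ∪ {z} = S'' ∪ {y}` with `S' = S \ {z}`, `S'' = S \ {y}` nonempty.  `U S' = (1 - z t) U S` and
`U S'' = (1 - y t) U S`, so `U S' - U S'' = (y - z) t U S`: hence `coeff (k-1) (U S) = 0` for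
`r + 1 - |S'| ≤ k ≤ r`, i.e. for `r + 1 - |S| ≤ k' ≤ r - 1`.  And `coeff r (U S') = coeff r (U S) - z coeff (r-1) (U S)`
gives `coeff r (U S) = 0`.  Take `S = Y`: `U Y = H`. -/
def S_VAN : Prop :=
  ∀ (Y : Finset ℂ) (H : PowerSeries ℂ) (r : ℕ), Y.Nonempty → Y.card ≤ r →
    (∀ y ∈ Y, PowerSeries.coeff r (pr1 (Y.erase y) * H) = 0) →
    ∀ k, r < k + Y.card → k ≤ r → PowerSeries.coeff k H = 0

/-- **POL** (1.5 h, no hypotheses).  A power series with `P H' = Q H`, `deg P ≤ q`, `deg Q < q`,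
`P(0) = 1` and with `q` consecutive vanishing coefficients is a polynomial.
PROOF.  Compare the coefficients of `t^N` for `N ≥ r`: `∑_{j ≤ q} P_j (N+1-j) H_{N+1-j} = ∑_{j < q} Q_j H_{N-j}`.
By strong induction on `k > r`, with `N = k - 1`, all `H_{k-1}, …, H_{k-q}` vanish (`k - q > r - q`), so
`k H_k = 0`.  (`q ≤ r`; the coefficient `PowerSeries.coeff_mul` as a sum over the antidiagonal.)
The polynomial is `PowerSeries.trunc (r+1) H`. -/
def S_POL : Prop :=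
  ∀ (H : PowerSeries ℂ) (P Q : Polynomial ℂ) (q r : ℕ), q ≤ r → P.natDegree ≤ q →
    (∀ j, q ≤ j → Q.coeff j = 0) → P.coeff 0 = 1 →
    (P : PowerSeries ℂ) * PowerSeries.derivative ℂ H = (Q : PowerSeries ℂ) * H →
    (∀ k, r < k + q → k ≤ r → PowerSeries.coeff k H = 0) →
    ∃ h : Polynomial ℂ, (h : PowerSeries ℂ) = H

/-- **ORD** (1.2 h, no hypotheses).  Orders of vanishing.
PROOF.  Let `y ∈ Y`, `y ≠ 0`, `h = (1 - y t)^v u` with `u(1/y) ≠ 0` (`Polynomial.exists_eq_pow_rootMultiplicity_mul_and_not_dvd`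
for `t - 1/y`, up to a constant).  `∏_{z ∈ Y} (1 - z t) h' = (∑_{w ∈ Y} b_w w ∏_{z ≠ w} (1 - z t)) h`.  Divide by
`(1 - y t)^v` (`h' = - v y (1 - y t)^(v-1) u + (1 - y t)^v u'`, so
`(1 - y t) h' = (1 - y t)^v (- v y u + (1 - y t) u')`) and evaluate at `t = 1/y`:
`- v y E u(1/y) = b_y y E u(1/y)` with `E = ∏_{z ≠ y} (1 - z/y) ≠ 0` (the terms `w ≠ y` contain the factor
`1 - y t`).  So `b_y = - v`. -/
def S_ORD : Prop :=
  ∀ (Y : Finset ℂ) (b : ℂ → ℂ) (h : Polynomial ℂ), h ≠ 0 →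
    (∏ y ∈ Y, (1 - Polynomial.C y * Polynomial.X)) * Polynomial.derivative h =
      (∑ y ∈ Y, Polynomial.C (b y * y) *
        ∏ z ∈ Y.erase y, (1 - Polynomial.C z * Polynomial.X)) * h →
    ∀ y ∈ Y, y ≠ 0 → ∃ v : ℕ, b y = - (v : ℂ)

/-- **NIL** (1.2 h, hypotheses allowed: `S_PSF`, `S_VAN`, `S_POL`, `S_ORD`).  The only common zero of the
generators of `Jd n` is `0`.
PROOF.  `Y = univ.image a`, `1 ≤ |Y| ≤ n < r = n + 1`.  `S_PSF` and `S_VAN` give `H_k = 0` for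
`r - |Y| < k ≤ r`; `S_POL` with `P = ∏_{y ∈ Y} (1 - y t)`, `Q = ∑ …`, `q = |Y|` (degrees `|Y|` and `< |Y|`): `H` is a
polynomial `h`, `h ≠ 0` since `H(0) = 1`.  `S_ORD` with `b y = 1 - c mlt y`: for `y ∈ Y`, `y ≠ 0`:
`(n+1) mlt(y)/n - 1 = v` is a natural number, so `n ∣ (n+1) mlt y`, `n ∣ mlt y`, `1 ≤ mlt y ≤ n`, so `mlt y = n`: all
`a i = y`, and `n y = ∑ a i = 0` contradicts `y ≠ 0`.  So `Y ⊆ {0}`. -/
def S_NIL : Prop :=
  ∀ (n : ℕ) (a : Fin n → ℂ), (∀ i, eval a (ff i (n + 1)) = 0) → ∑ i, a i = 0 → a = 0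

/-- **FDM** (1 h, hypothesis allowed: `S_NIL`).  The quotient is finite-dimensional.
PROOF.  The zero locus of `Jd n` in `ℂ^n` is contained in `{0}`; by the Nullstellensatz
(`MvPolynomial.vanishingIdeal_zeroLocus_eq_radical`) every `X i` is in the radical, so the images of the `X i` are
nilpotent, hence integral over `ℂ`; the quotient is an algebra of finite type, so it is finite
(`Algebra.IsIntegral`, `Algebra.finite_iff_isIntegral_and_finiteType`, `Algebra.IsIntegral.adjoin` ...), for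
`n = 0` too (`P 0 = ℂ`). -/
def S_FDM : Prop :=
  ∀ n : ℕ, Module.Finite ℂ (P n ⧸ Jd n)

/-- **HM** (1.5 h, hypotheses allowed: all the other goals).  The final statement of the block.
PROOF.  `pr = (Ideal.Quotient.mkₐ ℂ (Jd n)).toLinearMap`, `x i` = multiplication by the class of `X i`,
`y i` and `s g` = maps induced by `Tk i` and `sw g` on the quotient (`Submodule.mapQ` or a lift; stable by `S_STB`).
All relations hold on `P n` (`S_TRL`, `S_COM`, `sw_mul_apply`, …), hence on the quotient because `pr` is surjective.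
`∑ x i = 0`: `pw n 1 ∈ Jd n`.  `pr 1 ≠ 0`: `S_STB` (4).  `homog`: `S_STB` (3). -/
def S_HM : Prop :=
  ∀ n : ℕ, ∃ M : HMod n (P n ⧸ Jd n), ∀ f, M.pr f = Ideal.Quotient.mk (Jd n) f

end

end Pool.Agent.Helper4.HD
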